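import Mathlib
import Pool.Agent.TH714.PF.Main

/-!
A nontrivial normal subgroup of infinite index in a parafree group is not finitely generated.
No finiteness condition is put on the parafree group.
-/

namespace Pool.Agent.Results.MP_f3dc04_al.FGNormal

/-- A group `P` is parafree if it is residually nilpotent and there is a free group with the same
lower central quotients.  (Mathlib's lower central series starts with the whole group at
index `0`, so that its term of index `n` is the usual `γ_{n+1}`.) -/
def IsParafree (P : Type) [Group P] : Prop :=
  (⨅ n : ℕ, (⊤ : Subgroup P).lowerCentralSeries n) = ⊥ ∧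
  ∃ α : Type, ∀ n : ℕ, Nonempty (P ⧸ (⊤ : Subgroup P).lowerCentralSeries n ≃*
    FreeGroup α ⧸ (⊤ : Subgroup (FreeGroup α)).lowerCentralSeries n)

/-- **Normal subgroups of parafree groups.**  Let `P` be a parafree group and `N` a nontrivial
normal subgroup of infinite index.  Then `N` is not finitely generated. -/
theorem result (P : Type) [Group P] (hP : IsParafree P) (N : Subgroup P) (hnormal : N.Normal)
    (hN : N ≠ ⊥) (hindex : Infinite (P ⧸ N)) : ¬ N.FG := by
  obtain ⟨hres, α, h⟩ := hP
  intro hfg
  exact not_finite_iff_infinite.2 hindex (Pool.Agent.TH714.PF.main hres h N hfg hN)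

end Pool.Agent.Results.MP_f3dc04_al.FGNormal
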